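import Pool.Agent.Lib.MP_8817b2_lc.Member

open Pool.Agent.Lib.MP_ca1301_lc Pool.Agent.Lib.MP_8817b2_lc N793a5b8e

namespace Pool.Agent.Results.MP_8817b2_lc.Complete

/-- In every fixed dimension at least three, realizability of Delaunay triangulations is complete
for the class of problems that reduce to the existential theory of the reals. -/
theorem result : ∀ d : ℕ, 3 ≤ d → IsCompleteFor {L | ManyOneReducible L ETR} (DEL d) :=
  fun _ hd => complete hd

end Pool.Agent.Results.MP_8817b2_lc.Complete
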